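import Pool.Agent.H24.LV.Targets

/-!
# Interface between the stars and the end (MP_e21eee_nt)
-/

set_option autoImplicit false

open Finset MeasureTheory

namespace Pool.Agent.H31.PL

open Pool.Agent.H24.CL Pool.Agent.H24.LV

/-- WEX: the centre of a rich star is seen by the functional, with explicit dependence on the
richness. -/
def T_WEX : Prop :=
  ∀ k : ℕ, 3 ≤ k → ∀ C₄ : ℝ, 1 ≤ C₄ → ∃ C₃ CR M₀ : ℝ, 1 ≤ C₃ ∧ 1 ≤ CR ∧ 1 ≤ M₀ ∧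
    ∀ (M κ : ℝ) (N : ℕ) (S : Finset ℕ) (b : X k) (x : ℕ), M₀ ≤ M → 1 / M ≤ κ → κ ≤ 1 →
      2048 * M / κ ≤ (N : ℝ) → (N : ℝ) ≤ M ^ C₄ → (∀ p ∈ S, p.Prime) → M ^ C₃ ≤ (DS S : ℝ) →
      x < DS S → Rich S {v : X k | M ^ (-(1 / 2 : ℝ)) / 8 ≤ ‖u N v‖} κ b x →
      phi (DS S) x b ∈ WS k N (M ^ CR) (128 * M / κ)

end Pool.Agent.H31.PL
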