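import Pool.Agent.H22.LVP.JE

/-!
# Jensen's inequality over the pool: abstract form with density at most one (MP_e21eee_nt)
-/

set_option autoImplicit false

open Finset MeasureTheory

namespace Pool.Agent.H31.PL

open Pool.Agent.H24.CL Pool.Agent.H24.LV Pool.Agent.H22.LVP

open scoped Classical

theorem jec {k : ℕ} (Q : Finset ℕ) (V : Set (X k)) (G : ℕ → ℕ → X k → ℝ) (ρ Ω : ℝ) (n : ℕ)
    (hρ : 0 < ρ) (hΩ : 0 < Ω) (hn : 1 ≤ n) (hQ : ∀ p ∈ Q, p.Prime)
    (hGm : ∀ p x, Measurable (G p x)) (hGb : ∀ p x w, 0 ≤ G p x w ∧ G p x w ≤ 1)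
    (hVΩ : volume.real V ≤ Ω)
    (hmean : ∀ p ∈ Q, ρ * Ω ≤ (1 / (p : ℝ)) * ∑ x ∈ range p, ∫ w in V, G p x w)
    (hbig : 2 * (n : ℝ) ^ 2 ≤ ρ ^ n * Q.card) :
    ∃ S ⊆ Q, S.card = n ∧ ρ ^ n * Ω ≤ 2 * ((1 / (DS S : ℝ)) * ∑ x ∈ range (DS S),
      ∫ w in V, ∏ p ∈ S, G p (x / (DS S / p)) w) := by
  -- the big modulus
  set E : ℕ := DS Q with hE
  have hDS : ∀ S : Finset ℕ, S ⊆ Q → 0 < DS S := by
    intro S hS
    unfold DS
    exact Finset.prod_pos (fun p hp => (hQ p (hS hp)).pos)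
  have hE0 : 0 < E := hDS Q (Finset.Subset.refl Q)
  have hdvd : ∀ S : Finset ℕ, S ⊆ Q → DS S ∣ E := fun S hS =>
    Finset.prod_dvd_prod_of_subset _ _ _ hS
  set g : ℕ → ℕ → X k → ℝ := fun p x w => G p (x / (E / p)) w with hg
  have hg0 : ∀ p x w, 0 ≤ g p x w := fun p x w => (hGb p _ w).1
  have hgν : ∀ p x w, g p x w ≤ 1 := fun p x w => (hGb p _ w).2
  have hgBM : ∀ p, BM (g p) := fun p => ⟨fun x => hGm p _, 1, fun x w => by
    rw [abs_of_nonneg (hg0 p x w)]; exact hgν p x w⟩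
  -- products
  have hprodBM : ∀ f : Fin n → ℕ, BM (fun x w => ∏ i, g (f i) x w) := fun f =>
    ⟨fun x => Finset.measurable_prod _ (fun i _ => (hgBM (f i)).1 x), 1, fun x w => by
      rw [abs_of_nonneg (Finset.prod_nonneg (fun i _ => hg0 (f i) x w))]
      exact Finset.prod_le_one (fun i _ => hg0 (f i) x w) (fun i _ => hgν (f i) x w)⟩
  -- the mass of the stars
  have hmassS : ∀ S : Finset ℕ, S ⊆ Q → (1 / (DS S : ℝ)) * ∑ x ∈ range (DS S),
      ∫ w in V, ∏ p ∈ S, G p (x / (DS S / p)) w = JJ E V (fun x w => ∏ p ∈ S, g p x w) := by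
    intro S hS
    unfold JJ
    rw [← avg_div (fun x => ∫ w in V, ∏ p ∈ S, G p (x / (DS S / p)) w) (hDS S hS) hE0
      (hdvd S hS)]
    congr 1
    apply Finset.sum_congr rfl
    intro x _
    apply integral_congr_ae
    apply Filter.Eventually.of_forall
    intro w
    apply Finset.prod_congr rfl
    intro p hp
    simp only [hg]
    congr 1
    rw [Nat.div_div_eq_div_mul]
    congr 1
    have hpS : p ∣ DS S := Finset.dvd_prod_of_mem _ hp
    obtain ⟨b, hb⟩ := hpS
    obtain ⟨a, ha⟩ := hdvd S hS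
    have hp0 : 0 < p := (hQ p (hS hp)).pos
    have hS0 := hDS S hS
    rw [ha, Nat.mul_div_cancel_left a hS0, hb, Nat.mul_div_cancel_left b hp0, mul_assoc,
      Nat.mul_div_cancel_left _ hp0, mul_comm]
  -- the mean value of `g p`
  have hgmean : ∀ p ∈ Q, ρ * Ω ≤ JJ E V (g p) := by
    intro p hp
    have hp0 : 0 < p := (hQ p hp).pos
    refine le_trans (hmean p hp) (le_of_eq ?_)
    unfold JJ
    rw [← avg_div (fun x => ∫ w in V, G p x w) hp0 hE0 (by
      rw [hE]; exact Finset.dvd_prod_of_mem _ hp)]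
  -- sum over the pool
  have hQ0 : (0 : ℝ) < Q.card := by
    have h1 : (0 : ℝ) < 2 * (n : ℝ) ^ 2 := by
      have : (0 : ℝ) < n := by exact_mod_cast hn
      positivity
    have h2 : 0 < ρ ^ n * Q.card := lt_of_lt_of_le h1 hbig
    have h3 : 0 < ρ ^ n := pow_pos hρ n
    exact (mul_pos_iff_of_pos_left h3).mp h2
  set s : ℝ := Q.card * ρ with hs
  have hs0 : 0 < s := mul_pos hQ0 hρ
  set SQ : ℕ → X k → ℝ := fun x w => ∑ p ∈ Q, g p x w with hSQ
  have hSQBM : BM SQ := ⟨fun x => Finset.measurable_sum _ (fun p _ => (hgBM p).1 x),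
    Q.card * 1, fun x w => by
      rw [abs_of_nonneg (Finset.sum_nonneg (fun p _ => hg0 p x w)), ← nsmul_eq_mul,
        ← Finset.sum_const]
      exact Finset.sum_le_sum (fun p _ => hgν p x w)⟩
  have hSQ0 : ∀ x w, 0 ≤ SQ x w := fun x w => Finset.sum_nonneg (fun p _ => hg0 p x w)
  have hSQint : s * Ω ≤ JJ E V SQ := by
    rw [hSQ, JJ_sum Q g (fun p _ => hgBM p)]
    have h1 : ∑ _p ∈ Q, ρ * Ω ≤ ∑ p ∈ Q, JJ E V (g p) := Finset.sum_le_sum hgmean
    rw [Finset.sum_const, nsmul_eq_mul] at h1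
    rw [hs]; linarith
  have hpowBM : BM (fun x w => SQ x w ^ n) := by
    obtain ⟨h1, B, h2⟩ := hSQBM
    refine ⟨fun x => (h1 x).pow_const n, B ^ n, fun x w => ?_⟩
    rw [abs_pow]
    exact pow_le_pow_left₀ (abs_nonneg _) (h2 x w) n
  have hJ : s ^ n * Ω ≤ JJ E V (fun x w => SQ x w ^ n) := by
    have h1 : JJ E V (fun x w => (s ^ n - n * s ^ n) + (n * s ^ n / s) * SQ x w) ≤
        JJ E V (fun x w => SQ x w ^ n) := by
      apply JJ_mono ((BM.const _).add (hSQBM.cmul _)) hpowBM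
      intro x w
      have h2 := bern n s (SQ x w) hs0 (hSQ0 x w)
      refine le_trans (le_of_eq ?_) h2
      field_simp
      ring
    refine le_trans ?_ h1
    rw [JJ_add (BM.const _) (hSQBM.cmul _), JJ_const hE0, JJ_cmul]
    have h3 : 0 ≤ n * s ^ n / s := by positivity
    have h4 := mul_le_mul_of_nonneg_left hSQint h3
    have h5 : n * s ^ n / s * (s * Ω) = n * s ^ n * Ω := by field_simp
    rw [h5] at h4
    have h6 : (1 : ℝ) ≤ n := by exact_mod_cast hn
    have h7 : 0 ≤ s ^ n := pow_nonneg hs0.le n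
    have h8 : 0 ≤ (n - 1) * s ^ n * (Ω - volume.real V) :=
      mul_nonneg (mul_nonneg (by linarith) h7) (by linarith)
    nlinarith
  -- expansion
  set PS := Fintype.piFinset (fun _ : Fin n => Q) with hPS
  have hexp : JJ E V (fun x w => SQ x w ^ n) =
      ∑ f ∈ PS, JJ E V (fun x w => ∏ i, g (f i) x w) := by
    rw [← JJ_sum PS (fun f x w => ∏ i, g (f i) x w) (fun f _ => hprodBM f)]
    congr 1
    funext x w
    have h1 := Finset.prod_univ_sum (fun _ : Fin n => Q) (fun _ p => g p x w)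
    rw [Finset.prod_const, Finset.card_univ, Fintype.card_fin] at h1
    exact h1
  have hPScard : PS.card = Q.card ^ n := by
    rw [hPS, Fintype.card_piFinset]; simp
  have hup : ∀ f : Fin n → ℕ, JJ E V (fun x w => ∏ i, g (f i) x w) ≤ Ω := by
    intro f
    have h1 : JJ E V (fun x w => ∏ i, g (f i) x w) ≤ JJ E V (fun _ _ => (1 : ℝ)) := by
      apply JJ_mono (hprodBM f) (BM.const _)
      intro x w
      exact Finset.prod_le_one (fun i _ => hg0 (f i) x w) (fun i _ => hgν (f i) x w)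
    rw [JJ_const hE0, one_mul] at h1
    exact le_trans h1 hVΩ
  have hnoninj : ∑ f ∈ PS.filter (fun f => ¬ Function.Injective f),
      JJ E V (fun x w => ∏ i, g (f i) x w) ≤ s ^ n * Ω / 2 := by
    refine le_trans (Finset.sum_le_sum (fun f _ => hup f)) ?_
    rw [Finset.sum_const, nsmul_eq_mul]
    obtain ⟨m, rfl⟩ : ∃ m, n = m + 1 := ⟨n - 1, by omega⟩
    have h1 := card_not_inj Q m
    have h2 : ((PS.filter (fun f => ¬ Function.Injective f)).card : ℝ) ≤
        ((m : ℝ) + 1) ^ 2 * (Q.card : ℝ) ^ m := by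
      have h3 : ((PS.filter (fun f => ¬ Function.Injective f)).card : ℝ) ≤
        (((m + 1) ^ 2 * Q.card ^ m : ℕ) : ℝ) := by exact_mod_cast h1
      push_cast at h3
      exact h3
    refine le_trans (mul_le_mul_of_nonneg_right h2 hΩ.le) ?_
    push_cast at hbig
    have h5 : 0 ≤ (Q.card : ℝ) ^ m * Ω := by positivity
    have h6 := mul_le_mul_of_nonneg_right hbig h5
    rw [hs, mul_pow, pow_succ (Q.card : ℝ) m]
    nlinarith
  have hinjsum : s ^ n * Ω / 2 ≤ ∑ f ∈ PS.filter (fun f => Function.Injective f),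
      JJ E V (fun x w => ∏ i, g (f i) x w) := by
    have h1 := Finset.sum_filter_add_sum_filter_not PS (fun f => Function.Injective f)
      (fun f => JJ E V (fun x w => ∏ i, g (f i) x w))
    rw [← hexp] at h1
    linarith
  -- one tuple
  obtain ⟨f, hf, hfbig⟩ : ∃ f ∈ PS.filter (fun f => Function.Injective f),
      ρ ^ n * Ω / 2 ≤ JJ E V (fun x w => ∏ i, g (f i) x w) := by
    by_contra hno
    push Not at hno
    have hB : 0 < s ^ n * Ω / 2 := by positivity
    rcases (PS.filter (fun f => Function.Injective f)).eq_empty_or_nonempty with h0 | h0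
    · rw [h0, Finset.sum_empty] at hinjsum
      linarith
    · have h1 := Finset.sum_lt_sum_of_nonempty h0 hno
      rw [Finset.sum_const, nsmul_eq_mul] at h1
      have h2 : ((PS.filter (fun f => Function.Injective f)).card : ℝ) ≤ (Q.card : ℝ) ^ n := by
        rw [← Nat.cast_pow, ← hPScard]
        exact_mod_cast Finset.card_filter_le _ _
      have h3 : 0 ≤ ρ ^ n * Ω / 2 := by positivity
      have h4 := mul_le_mul_of_nonneg_right h2 h3
      rw [hs, mul_pow] at hinjsum
      linarith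
  rw [Finset.mem_filter, hPS, Fintype.mem_piFinset] at hf
  refine ⟨(univ : Finset (Fin n)).image f, ?_, ?_, ?_⟩
  · intro p hp
    obtain ⟨i, _, rfl⟩ := Finset.mem_image.mp hp
    exact hf.1 i
  · rw [Finset.card_image_of_injective _ hf.2, Finset.card_univ, Fintype.card_fin]
  · rw [hmassS _ (by
      intro p hp
      obtain ⟨i, _, rfl⟩ := Finset.mem_image.mp hp
      exact hf.1 i)]
    have h1 : (fun (x : ℕ) (w : X k) => ∏ p ∈ (univ : Finset (Fin n)).image f, g p x w) =
        fun x w => ∏ i, g (f i) x w := by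
      funext x w
      rw [Finset.prod_image (fun i _ j _ h => hf.2 h)]
    rw [h1]
    linarith

end Pool.Agent.H31.PL
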