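import Pool.Agent.H31.PL.Targets
import Pool.Agent.H61.LVP.wWE

/-!
# Row WEX (MP_e21eee_nt): the centre of a rich star is seen by the functional
-/

set_option autoImplicit false

open Finset MeasureTheory

namespace Pool.Agent.H31.PL

open Pool.Agent.H24.CL Pool.Agent.H24.LV Pool.Agent.H31.LV Pool.Agent.H61.LVP

theorem pf_WEX (hCO : L_CO) (hDL : W_DL) (hTF : W_TF) (hEQ : W_EQ) (hRU : W_RU) : T_WEX := by
  intro k hk C₄ hC₄
  obtain ⟨C₁, hC₁, h1⟩ := hDL k (by omega)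
  obtain ⟨C₂, hC₂, h2⟩ := hTF k
  obtain ⟨C₃, hC₃, h3⟩ := hEQ k (by omega)
  set A : ℝ := 2 * C₁ + C₄ + 1 with hA
  refine ⟨3 * A + 4, A + 1, max (C₂ * C₁ * 64 ^ C₁) (max (128 * C₃) 1), by linarith, by linarith,
    (le_max_right _ _).trans (le_max_right _ _), ?_⟩
  -- the threshold
  set T : ℝ := C₂ * C₁ * 64 ^ C₁ with hT
  have hT1 : 1 ≤ (64 : ℝ) ^ C₁ := Real.one_le_rpow (by norm_num) (by linarith)
  intro M κ N S b x hM0 hκ hκ1 hNlo hNhi hS hDS hx hrich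
  have hM1 : 1 ≤ M := ((le_max_right _ _).trans (le_max_right _ _)).trans hM0
  have hMT : T ≤ M := (le_max_left _ _).trans hM0
  have hM128 : 128 * C₃ ≤ M := ((le_max_left _ _).trans (le_max_right _ _)).trans hM0
  have hMC₃ : C₃ ≤ M := by linarith
  have hMp : 0 < M := by linarith
  have hκ0 : 0 < κ := lt_of_lt_of_le (by positivity) hκ
  set Mp : ℝ := 64 * M / κ with hMpdef
  have hrp : ∀ y z : ℝ, y ≤ z → M ^ y ≤ M ^ z := fun y z h =>
    Real.rpow_le_rpow_of_exponent_le hM1 h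
  have hMp1 : 1 ≤ Mp := by
    rw [hMpdef, le_div_iff₀ hκ0]
    linarith
  have hMp2 : Mp ≤ 64 * M ^ (2 : ℝ) := by
    rw [hMpdef, div_le_iff₀ hκ0, Real.rpow_two]
    have h4 : 1 ≤ M * κ := by
      rw [div_le_iff₀ hMp] at hκ
      linarith
    nlinarith
  have hMp0 : 0 < Mp := by linarith
  -- `R₀ = M^A`
  have hMpC : Mp ^ C₁ ≤ 64 ^ C₁ * M ^ (2 * C₁) := by
    calc Mp ^ C₁ ≤ (64 * M ^ (2 : ℝ)) ^ C₁ := Real.rpow_le_rpow hMp0.le hMp2 (by linarith)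
      _ = 64 ^ C₁ * M ^ (2 * C₁) := by
        rw [Real.mul_rpow (by norm_num) (by positivity), ← Real.rpow_mul hMp.le]
  have hRE : C₂ * (C₁ * Mp ^ C₁) ≤ M ^ (2 * C₁ + 1) := by
    calc C₂ * (C₁ * Mp ^ C₁) ≤ C₂ * (C₁ * (64 ^ C₁ * M ^ (2 * C₁))) := by gcongr
      _ = T * M ^ (2 * C₁) := by rw [hT]; ring
      _ ≤ M * M ^ (2 * C₁) := by gcongr
      _ = M ^ (2 * C₁ + 1) := by
        rw [Real.rpow_add hMp, Real.rpow_one]
        ring
  have hRq' : C₁ * Mp ^ C₁ ≤ M ^ (2 * C₁ + 1) := by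
    refine le_trans ?_ hRE
    refine le_mul_of_one_le_left (by positivity) hC₂
  refine det hCO hRU h1 h2 hC₃ h3 (κ := κ) (Mp := Mp) (R₀ := M ^ A) hMp hMp1 ?_ ?_
    (by linarith) (Real.one_le_rpow hM1 (by linarith)) ?_ ?_ ?_ ?_ ?_ hS hx hrich
  · rw [hMpdef]
    refine le_of_eq ?_
    field_simp
  · refine le_trans ?_ hNlo
    have h5 : 0 ≤ M / κ := by positivity
    have e1 : 16 * Mp = 1024 * (M / κ) := by rw [hMpdef]; ring
    have e2 : 2048 * M / κ = 2048 * (M / κ) := by ring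
    rw [e1, e2]
    linarith
  · calc C₁ * Mp ^ C₁ * N ≤ M ^ (2 * C₁ + 1) * M ^ C₄ := by gcongr
      _ = M ^ A := by
        rw [← Real.rpow_add hMp]
        congr 1
        rw [hA]
        ring
  · exact hRE.trans (hrp _ _ (by linarith))
  · have e1 : (M ^ A) ^ 3 = M ^ (3 * A) := by
      rw [← Real.rpow_natCast, ← Real.rpow_mul hMp.le]
      congr 1
      push_cast
      ring
    rw [e1]
    calc 2 * Mp * C₃ * M ^ (3 * A) ≤ 2 * (64 * M ^ (2 : ℝ)) * C₃ * M ^ (3 * A) := by gcongr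
      _ = (128 * C₃) * (M ^ (2 : ℝ) * M ^ (3 * A)) := by ring
      _ ≤ M * (M ^ (2 : ℝ) * M ^ (3 * A)) := by gcongr
      _ = M ^ (1 + (2 + 3 * A)) := by
        rw [Real.rpow_add hMp 1 (2 + 3 * A), Real.rpow_add hMp 2 (3 * A), Real.rpow_one]
      _ ≤ M ^ (3 * A + 4) := hrp _ _ (by linarith)
      _ ≤ DS S := hDS
  · rw [hMpdef]
    refine le_of_eq ?_
    ring
  · calc C₃ * M ^ A ≤ M * M ^ A := by gcongr
      _ = M ^ (A + 1) := by
        rw [Real.rpow_add hMp A 1, Real.rpow_one]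
        ring

end Pool.Agent.H31.PL
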